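import Pool.Agent.X113.Osc

/-!
# Every linear form of consecutive gaps deviates from its mean on both sides

Assume RH and let `δ_n` be the unfolded gaps.  For every `k` there is `ε > 0` such that for all large
`N` and all real `a 0, …, a (k - 1)` with `|a j| ≥ 1` for some `j`, the linear form
`a 0 (δ_n - 1) + … + a (k - 1) (δ_{n+k-1} - 1)`, whose mean is `o(1)`, is `≥ ε` for at least `ε N` of the
indices `n ≤ N`, and `≤ -ε` for at least `ε N` of them.

Examples: for a positive proportion of `n` one has `δ_{n+1} ≥ δ_n + ε`, and `δ_{n+1} ≤ δ_n - ε` for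
another; for a positive proportion `δ_{n+1} ≥ (δ_n + δ_{n+2}) / 2 + ε`, and so on, with `ε` depending
only on the number of the gaps involved.  In particular (`ε / 2` instead of `ε`) no linear form is
near a constant for almost all `n`.
-/

set_option autoImplicit false

open Filter

namespace Pool.Agent.Results.MP_7eacff_nt.LinearFormsOfGaps

/-- multiplicity of `s` as a zero of the Riemann zeta function (order of vanishing at `s`) -/
noncomputable def zmult (s : ℂ) : ℕ := analyticOrderNatAt riemannZeta s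

/-- the number of nontrivial zeros of `ζ` with ordinate in `(0, t]`, with multiplicity -/
noncomputable def NZ (t : ℝ) : ℕ :=
  ∑ᶠ s ∈ {s : ℂ | riemannZeta s = 0 ∧ 0 < s.re ∧ s.re < 1 ∧ 0 < s.im ∧ s.im ≤ t}, zmult s

/-- for `n ≥ 1`: the `n`-th positive ordinate `γ n` of a nontrivial zero of `ζ`, the ordinates being
listed in nondecreasing order and repeated according to multiplicity -/
noncomputable def γ (n : ℕ) : ℝ := sInf {t : ℝ | n ≤ NZ t}

/-- the unfolded consecutive gaps `δ_n = (γ_{n+1} - γ_n) / 2π · log (γ_n / 2π)` -/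
noncomputable def δ (n : ℕ) : ℝ :=
  (γ (n + 1) - γ n) / (2 * Real.pi) * Real.log (γ n / (2 * Real.pi))

/-- **Theorem.** Every linear form of `k` consecutive unfolded gaps deviates from its mean on both
sides, by a fixed amount and for a positive proportion of the indices, uniformly in the form. -/
theorem result (RH : RiemannHypothesis) (k : ℕ) :
    ∃ ε : ℝ, 0 < ε ∧ ∀ᶠ N : ℕ in atTop, ∀ a : Fin k → ℝ, (∃ j, 1 ≤ |a j|) →
      ε * N ≤ ({n : ℕ | 1 ≤ n ∧ n ≤ N ∧ ε ≤ ∑ j : Fin k, a j * (δ (n + j) - 1)}.ncard : ℝ) ∧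
      ε * N ≤ ({n : ℕ | 1 ≤ n ∧ n ≤ N ∧ ∑ j : Fin k, a j * (δ (n + j) - 1) ≤ -ε}.ncard : ℝ) := by
  obtain ⟨ε, hε, h⟩ := Pool.Agent.X113.Osc.osc RH k
  have e : ∀ n : ℕ, Pool.Agent.Y743.LR.dl n = δ n := by
    intro n
    have e1 : Pool.Agent.Y743.LR.dl n =
      (γ (n + 1) - γ n) * Real.log (γ n / (2 * Real.pi)) / (2 * Real.pi) := rfl
    rw [e1]
    unfold δ
    ring
  simp only [e] at h
  exact ⟨ε, hε, h⟩

end Pool.Agent.Results.MP_7eacff_nt.LinearFormsOfGaps
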