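import Pool.Agent.X112.GS.RecFin
import Pool.Agent.X112.GS.Nc

/-!
The unfolded gaps between zeros of zeta satisfy no approximate linear recurrence with constant
coefficients on almost any window of bounded length, not even with a polynomial forcing term and with
coefficients that depend on the window.  Unconditional.

Idea of the proof.  Write the linear form `∑ c_j δ_{n+j}` as `∑ g_j (Δ^j δ)_n`, `Δ` the difference
operator, and let `a` be the least index for which `g_a` is not very small.  If the form is nearly
constant on a long window, then so is `Δ^a u` where `u = g_a δ + Δ(…)`; since `u` is bounded at a few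
places far apart (the gaps are tight) the differences can be removed one by one and `u` itself is
nearly constant, `u ≈ b`.  Summing over `r` consecutive indices the second term telescopes, and
`g_a (x_{n+r} - x_n) = b r + O(1)`, `x_n` the unfolded ordinates.  The law of large numbers for a very
large `r` gives `b ≈ g_a`, and then the sums of `r` gaps are within `O(1)` of `r`; this is false for
most `n` and large `r` by the central limit theorem of Selberg and Fujii for the sums of `r`
consecutive gaps.
-/

set_option autoImplicit false

open Filter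

namespace Pool.Agent.Results.MP_7eacff_nt.NoLinearRecurrence

/-- multiplicity of `s` as a zero of the Riemann zeta function (order of vanishing at `s`) -/
noncomputable def zmult (s : ℂ) : ℕ := analyticOrderNatAt riemannZeta s

/-- the number of nontrivial zeros of `ζ` with ordinate in `(0, t]`, with multiplicity -/
noncomputable def NZ (t : ℝ) : ℕ :=
  ∑ᶠ s ∈ {s : ℂ | riemannZeta s = 0 ∧ 0 < s.re ∧ s.re < 1 ∧ 0 < s.im ∧ s.im ≤ t}, zmult s

/-- for `n ≥ 1`: the `n`-th positive ordinate `γ n` of a nontrivial zero of `ζ`, the ordinates being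
listed in nondecreasing order and repeated according to multiplicity -/
noncomputable def γ (n : ℕ) : ℝ := sInf {t : ℝ | n ≤ NZ t}

/-- the unfolded consecutive gaps `δ_n = (γ_{n+1} - γ_n) / 2π · log (γ_n / 2π)` -/
noncomputable def δ (n : ℕ) : ℝ :=
  (γ (n + 1) - γ n) / (2 * Real.pi) * Real.log (γ n / (2 * Real.pi))

/-- Unconditionally, with `γ n` the ordinates of all the nontrivial zeros in the upper half-plane: for
all `k`, `d` and `η > 0` there are `B` and `ε > 0` such that for all large `N` at most `η N` of the
`n ≤ N` have the following property: there are real `c_0, …, c_k` with `|c_j| ≥ 1` for some `j` and a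
real polynomial `P` of degree at most `d` such that `|∑_{j ≤ k} c_j δ_{n+i+j} - P(i)| < ε` for all
`0 ≤ i < B`. -/
theorem result (k d : ℕ) (η : ℝ) (hη : 0 < η) :
    ∃ (B : ℕ) (ε : ℝ), 0 < ε ∧ ∀ᶠ N : ℕ in atTop,
      ({n : ℕ | 1 ≤ n ∧ n ≤ N ∧ ∃ (c : ℕ → ℝ) (P : Polynomial ℝ),
        (∃ j ≤ k, 1 ≤ |c j|) ∧ P.natDegree ≤ d ∧
        ∀ i < B, |∑ j ∈ Finset.range (k + 1), c j * δ (n + i + j) - P.eval (i : ℝ)| < ε}.ncard : ℝ) ≤
      η * N := by
  classical
  have e2 : ∀ n, δ n = Pool.Agent.X112.GS.dq n := fun n => rfl
  simp only [e2]
  obtain ⟨B, ε, hε, h⟩ := Pool.Agent.X112.GS.rec_main k d η hη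
  refine ⟨B, ε, hε, ?_⟩
  filter_upwards [h] with N hN
  rw [Pool.Agent.X112.GS.nc]
  refine le_trans (le_of_eq ?_) hN
  congr!

end Pool.Agent.Results.MP_7eacff_nt.NoLinearRecurrence
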