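import Pool.Agent.X101.NR.Fin

/-!
# Number rigidity of the zeros of zeta at the scale of the spacings

Assume the Riemann hypothesis.  Let `y_n = δ_1 + … + δ_{n-1}` be the unfolded ordinates.  The theorem
below says that around all but `ε N` of the zeros `y_n`, `n ≤ N`, the NUMBER of zeros in an arbitrary
set `J ⊆ [-ℓ, ℓ]` (relative to `y_n`) is determined by the zeros of a bounded window which lie
OUTSIDE `J`: it is within `ε` of minus the sum of a fixed, slowly varying, even kernel `h` over those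
zeros.  This is the number rigidity in the sense of Ghosh and Peres, which is a property of the sine
process, for the local statistics of the zeros of zeta seen from a zero.

Idea of the proof.  The linear statistic `Z(s) = Σ_m f̂ (μ (γ_m - s) log V / 2π)` over the ordinates
of a dyadic block has `∫ |Z|² ≪ v (block length)` with `v = ∫ |ξ| f(ξ)² dξ`, by Montgomery's theorem
on the pair correlation (`f` is supported in `(-1, 1)`, and `f(0) = 0` removes the diagonal term).
The same holds for its derivative, so a Sobolev inequality gives the mean of `|Z|` over the zeros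
themselves.  Since `v` may be as small as we like with `∫ f = 1` (the space `H^{1/2}` of the line does
not embed in the bounded functions), `Z` is close to `0` at almost all the zeros, although its kernel
is as close to `1` on `[-ℓ, ℓ]` as we like.  The tails are controlled by the large deviations of
`y_{n+K} - y_n`.
-/

set_option autoImplicit false

open Filter Set

namespace Pool.Agent.Results.MP_7eacff_nt.NumberRigidity

/-- multiplicity of `s` as a zero of the Riemann zeta function (order of vanishing at `s`) -/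
noncomputable def zmult (s : ℂ) : ℕ := analyticOrderNatAt riemannZeta s

/-- the number of nontrivial zeros of `ζ` with ordinate in `(0, t]`, with multiplicity -/
noncomputable def NZ (t : ℝ) : ℕ :=
  ∑ᶠ s ∈ {s : ℂ | riemannZeta s = 0 ∧ 0 < s.re ∧ s.re < 1 ∧ 0 < s.im ∧ s.im ≤ t}, zmult s

/-- for `n ≥ 1`: the `n`-th positive ordinate `γ n` of a nontrivial zero of `ζ`, the ordinates being
listed in nondecreasing order and repeated according to multiplicity -/
noncomputable def γ (n : ℕ) : ℝ := sInf {t : ℝ | n ≤ NZ t}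

/-- the unfolded consecutive gaps `δ_n = (γ_{n+1} - γ_n) / 2π · log (γ_n / 2π)` -/
noncomputable def δ (n : ℕ) : ℝ := (γ (n + 1) - γ n) / (2 * Real.pi) * Real.log (γ n / (2 * Real.pi))

/-- the unfolded ordinates `y_n = δ_1 + … + δ_{n-1}`, for `n ≥ 1` -/
noncomputable def y (n : ℕ) : ℝ := ∑ i ∈ Finset.Ico 1 n, δ i

lemma yd_eq {n : ℕ} (hn : 1 ≤ n) : Pool.Agent.X101.NR.yd n = δ 0 + y n := by
  unfold Pool.Agent.X101.NR.yd y
  rw [Finset.range_eq_Ico, Finset.sum_eq_sum_Ico_succ_bot (by omega)]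
  rfl

/-- **Number rigidity of the zeros of zeta, at the scale of the mean spacing.**  On the Riemann
hypothesis, for all `ℓ` and all `ε > 0` there are `M ≥ ℓ` and an even kernel `h` with `|h| ≤ 1`, `h ≥ 1 - ε`
on `[-ℓ, ℓ]` and `|h x - h x'| ≤ ε |x - x'|`, such that for all large `N` at least `(1 - ε) N` of the
indices `n ≤ N` have the following property: for EVERY set `J ⊆ [-ℓ, ℓ]` the number of the zeros
`y_m` with `y_m - y_n ∈ J` is within `ε` of `- Σ h (y_m - y_n)`, the sum being over the zeros `y_m`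
with `|y_m - y_n| ≤ M` and `y_m - y_n ∉ J`.  (All the sets of indices are finite.) -/
theorem result (RH : RiemannHypothesis) (ℓ ε : ℝ) (hε : 0 < ε) :
    (∀ (n : ℕ) (M : ℝ), {m : ℕ | 1 ≤ m ∧ |y m - y n| ≤ M}.Finite) ∧
    ∃ M : ℝ, ℓ ≤ M ∧ ∃ h : ℝ → ℝ, (∀ x, h (-x) = h x) ∧ (∀ x, |h x| ≤ 1) ∧
      (∀ x x', |h x - h x'| ≤ ε * |x - x'|) ∧ (∀ x, |x| ≤ ℓ → 1 - ε ≤ h x) ∧
      ∀ᶠ N : ℕ in atTop, (1 - ε) * N ≤
        ({n : ℕ | 1 ≤ n ∧ n ≤ N ∧ ∀ J : Set ℝ, J ⊆ Icc (-ℓ) ℓ →
          |({m : ℕ | 1 ≤ m ∧ y m - y n ∈ J}.ncard : ℝ) +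
            ∑ᶠ m ∈ {m : ℕ | 1 ≤ m ∧ |y m - y n| ≤ M ∧ y m - y n ∉ J}, h (y m - y n)| ≤
              ε}.ncard : ℝ) := by
  constructor
  · intro n M
    have h1 : Tendsto y atTop atTop := by
      have h2 : Tendsto (fun m => Pool.Agent.X101.NR.yd m - δ 0) atTop atTop :=
        tendsto_atTop_add_const_right _ _ Pool.Agent.X101.NR.yd_tendsto
      refine h2.congr' ?_
      filter_upwards [eventually_ge_atTop 1] with m hm
      rw [yd_eq hm]; ring
    obtain ⟨K, hK⟩ := (h1.eventually_gt_atTop (y n + M)).exists_forall_of_atTop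
    refine (Set.finite_Iio K).subset ?_
    rintro m ⟨_, hm⟩
    rw [Set.mem_Iio]
    by_contra hc
    have h3 := hK m (not_lt.1 hc)
    have h4 := (abs_le.1 hm).2
    linarith
  · obtain ⟨M, hM, h, h1, h2, h3, h4, h5⟩ := Pool.Agent.X101.NR.core RH (ℓ := max ℓ 1)
      (ε := min ε 1) (le_max_right _ _) (lt_min hε one_pos) (min_le_right _ _)
    have hε1 : min ε 1 ≤ ε := min_le_left _ _
    have hℓ1 : ℓ ≤ max ℓ 1 := le_max_left _ _
    refine ⟨M, hℓ1.trans hM, h, h2, h3, fun x x' => ?_, fun x hx => ?_, ?_⟩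
    · exact (h1 x x').trans (mul_le_mul_of_nonneg_right hε1 (abs_nonneg _))
    · have := h4 x (hx.trans hℓ1)
      linarith
    · filter_upwards [h5] with N hN
      have hN0 : (0 : ℝ) ≤ N := Nat.cast_nonneg N
      have h6 : (1 - ε) * N ≤ (1 - min ε 1) * N :=
        mul_le_mul_of_nonneg_right (by linarith) hN0
      refine (h6.trans hN).trans ?_
      have hsub : {n : ℕ | 1 ≤ n ∧ n ≤ N ∧ Pool.Agent.X101.NR.Good (max ℓ 1) (min ε 1) M h n} ⊆
          {n : ℕ | 1 ≤ n ∧ n ≤ N ∧ ∀ J : Set ℝ, J ⊆ Icc (-ℓ) ℓ →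
          |({m : ℕ | 1 ≤ m ∧ y m - y n ∈ J}.ncard : ℝ) +
            ∑ᶠ m ∈ {m : ℕ | 1 ≤ m ∧ |y m - y n| ≤ M ∧ y m - y n ∉ J}, h (y m - y n)| ≤ ε} := by
        rintro n ⟨hn1, hn2, hg⟩
        refine ⟨hn1, hn2, fun J hJ => ?_⟩
        have hJ' : J ⊆ Icc (-(max ℓ 1)) (max ℓ 1) :=
          hJ.trans (Set.Icc_subset_Icc (by linarith) hℓ1)
        have h7 := (hg J hJ').trans hε1
        have hd : ∀ m : ℕ, 1 ≤ m →
            Pool.Agent.X101.NR.yd m - Pool.Agent.X101.NR.yd n = y m - y n := by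
          intro m hm
          rw [yd_eq hm, yd_eq hn1]; ring
        have e1 : {m : ℕ | 1 ≤ m ∧ Pool.Agent.X101.NR.yd m - Pool.Agent.X101.NR.yd n ∈ J} =
            {m : ℕ | 1 ≤ m ∧ y m - y n ∈ J} := by
          ext m
          simp only [Set.mem_ofPred_eq]
          constructor
          · rintro ⟨a1, a2⟩
            rw [hd m a1] at a2
            exact ⟨a1, a2⟩
          · rintro ⟨a1, a2⟩
            rw [← hd m a1] at a2
            exact ⟨a1, a2⟩
        have e2 : {m : ℕ | 1 ≤ m ∧ |Pool.Agent.X101.NR.yd m - Pool.Agent.X101.NR.yd n| ≤ M ∧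
            Pool.Agent.X101.NR.yd m - Pool.Agent.X101.NR.yd n ∉ J} =
            {m : ℕ | 1 ≤ m ∧ |y m - y n| ≤ M ∧ y m - y n ∉ J} := by
          ext m
          simp only [Set.mem_ofPred_eq]
          constructor
          · rintro ⟨a1, a2⟩
            rw [hd m a1] at a2
            exact ⟨a1, a2⟩
          · rintro ⟨a1, a2⟩
            rw [← hd m a1] at a2
            exact ⟨a1, a2⟩
        rw [e1, e2] at h7
        have e3 : ∑ᶠ m ∈ {m : ℕ | 1 ≤ m ∧ |y m - y n| ≤ M ∧ y m - y n ∉ J},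
            h (Pool.Agent.X101.NR.yd m - Pool.Agent.X101.NR.yd n) =
            ∑ᶠ m ∈ {m : ℕ | 1 ≤ m ∧ |y m - y n| ≤ M ∧ y m - y n ∉ J}, h (y m - y n) := by
          apply finsum_congr
          intro m
          apply finsum_congr
          intro hm
          rw [hd m hm.1]
        rw [e3] at h7
        exact h7
      have hfin : {n : ℕ | 1 ≤ n ∧ n ≤ N ∧ ∀ J : Set ℝ, J ⊆ Icc (-ℓ) ℓ →
          |({m : ℕ | 1 ≤ m ∧ y m - y n ∈ J}.ncard : ℝ) +
            ∑ᶠ m ∈ {m : ℕ | 1 ≤ m ∧ |y m - y n| ≤ M ∧ y m - y n ∉ J}, h (y m - y n)| ≤ ε}.Finite :=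
        (Set.finite_Iic N).subset fun n hn => hn.2.1
      exact_mod_cast Set.ncard_le_ncard hsub hfin

end Pool.Agent.Results.MP_7eacff_nt.NumberRigidity
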