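import Pool.Agent.TH800.LD.Asm3

/-!
# All blocks of consecutive gaps around a typical zero are regular

Assume the Riemann hypothesis and let `ε > 0`.  Call a block `δ_a, …, δ_{a+m-1}` of consecutive
unfolded gaps of the zeta zeros regular if its sum is within `ε m` of `m`.  Then for all but at most
`N exp (-c M log M)` of the indices `n ≤ N` EVERY block of length at least `M` which contains the
index `n` is regular, uniformly in `N` and `M`.  In particular all the blocks of length at least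
`C log N / log log N` that begin before the index `N` are regular.

Idea of the proof.  The theorem `TH800.LD.main` of the starting files (not handed in) bounds the
number of the `n ≤ N` for which the one block of length `m` beginning at `n` is not regular.  Here the
exceptional sets of all the lengths `m ≥ M` and of all the positions of `n` in the block are
combined; the bound for a single block is strong enough for this.
-/

set_option autoImplicit false

open Filter

namespace Pool.Agent.Results.MP_7eacff_nt.RegularBlocks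

/-- multiplicity of `s` as a zero of the Riemann zeta function (order of vanishing at `s`) -/
noncomputable def zmult (s : ℂ) : ℕ := analyticOrderNatAt riemannZeta s

/-- the number of nontrivial zeros of `ζ` with ordinate in `(0, t]`, with multiplicity -/
noncomputable def NZ (t : ℝ) : ℕ :=
  ∑ᶠ s ∈ {s : ℂ | riemannZeta s = 0 ∧ 0 < s.re ∧ s.re < 1 ∧ 0 < s.im ∧ s.im ≤ t}, zmult s

/-- for `n ≥ 1`: the `n`-th positive ordinate `γ n` of a nontrivial zero of `ζ`, the ordinates being
listed in nondecreasing order and repeated according to multiplicity -/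
noncomputable def γ (n : ℕ) : ℝ := sInf {t : ℝ | n ≤ NZ t}

/-- the unfolded consecutive gaps `δ_n = (γ_{n+1} - γ_n) / 2π · log (γ_n / 2π)` -/
noncomputable def δ (n : ℕ) : ℝ := (γ (n + 1) - γ n) / (2 * Real.pi) * Real.log (γ n / (2 * Real.pi))

/-- the block of the `m` gaps `δ_a, …, δ_{a+m-1}` is `ε`-regular: its mean is within `ε` of `1` -/
def Regular (ε : ℝ) (a m : ℕ) : Prop := |∑ i ∈ Finset.range m, δ (a + i) - m| ≤ ε * m

lemma bound_one {c x : ℝ} (hx : 1 ≤ x) (h : 3 ≤ c / 2 * Real.log x) :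
    x * Real.exp (-c * (x * Real.log x)) ≤
      Real.exp (-(c / 2) * (x * Real.log x)) * Real.exp (-x) := by
  have h1 : x ≤ Real.exp x := by linarith [Real.add_one_le_exp x]
  have h2 : Real.exp (-c * (x * Real.log x)) = Real.exp (-(c / 2) * (x * Real.log x)) *
      Real.exp (-(c / 2) * (x * Real.log x)) := by
    rw [← Real.exp_add]; congr 1; ring
  have h3 : Real.exp x * Real.exp (-(c / 2) * (x * Real.log x)) ≤ Real.exp (-x) := by
    rw [← Real.exp_add]
    apply Real.exp_le_exp.2
    nlinarith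
  rw [h2]
  calc x * (Real.exp (-(c / 2) * (x * Real.log x)) * Real.exp (-(c / 2) * (x * Real.log x)))
      = Real.exp (-(c / 2) * (x * Real.log x)) * (x * Real.exp (-(c / 2) * (x * Real.log x))) := by
        ring
    _ ≤ Real.exp (-(c / 2) * (x * Real.log x)) *
        (Real.exp x * Real.exp (-(c / 2) * (x * Real.log x))) := by gcongr
    _ ≤ _ := by gcongr

lemma sum_exp (F : Finset ℕ) (hF : ∀ m ∈ F, 1 ≤ m) : ∑ m ∈ F, Real.exp (-(m : ℝ)) ≤ 1 := by
  have h1 : ∀ m : ℕ, Real.exp (-(m : ℝ)) ≤ (1 / 2 : ℝ) ^ m := by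
    intro m
    have e : Real.exp (-(m : ℝ)) = (Real.exp (-1)) ^ m := by
      rw [← Real.exp_nat_mul]; congr 1; ring
    rw [e]
    apply pow_le_pow_left₀ (Real.exp_pos _).le
    rw [Real.exp_neg, ← one_div]
    apply one_div_le_one_div_of_le (by norm_num)
    linarith [Real.exp_one_gt_d9]
  have h2 : F ⊆ (Finset.range (F.sup id + 1)).filter (fun m => 1 ≤ m) := by
    intro m hm
    rw [Finset.mem_filter, Finset.mem_range]
    exact ⟨Nat.lt_succ_of_le (Finset.le_sup (f := id) hm), hF m hm⟩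
  have h3 : ∀ K : ℕ, ∑ m ∈ (Finset.range (K + 1)).filter (fun m => 1 ≤ m), (1 / 2 : ℝ) ^ m
      = 1 - (1 / 2) ^ K := by
    intro K
    induction K with
    | zero => simp [Finset.filter_singleton]
    | succ K ih =>
      rw [Finset.range_add_one, Finset.filter_insert, if_pos (by omega), Finset.sum_insert (by simp), ih]
      ring
  calc ∑ m ∈ F, Real.exp (-(m : ℝ)) ≤ ∑ m ∈ F, (1 / 2 : ℝ) ^ m := Finset.sum_le_sum fun m _ => h1 m
    _ ≤ ∑ m ∈ (Finset.range (F.sup id + 1)).filter (fun m => 1 ≤ m), (1 / 2 : ℝ) ^ m :=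
        Finset.sum_le_sum_of_subset_of_nonneg h2 fun _ _ _ => by positivity
    _ = 1 - (1 / 2) ^ (F.sup id) := h3 _
    _ ≤ 1 := by
        have : (0 : ℝ) ≤ (1 / 2) ^ (F.sup id) := by positivity
        linarith

/-- **All blocks around a typical zero are regular.**  On the Riemann hypothesis, for every
`0 < ε ≤ 1` there are `c > 0` and `M₀` such that for all `N ≥ 1` and `M ≥ M₀` the number of the
indices `1 ≤ n ≤ N` contained in some block of at least `M` consecutive gaps which is not
`ε`-regular is at most `N exp (-c M log M)`.  Moreover there is `C` such that for all `N ≥ 3` all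
the blocks which begin at an index `1 ≤ a ≤ N` and have length `m ≥ C log N / log log N` are
`ε`-regular. -/
theorem result (RH : RiemannHypothesis) (ε : ℝ) (hε : 0 < ε) (hε1 : ε ≤ 1) :
    (∃ c : ℝ, 0 < c ∧ ∃ M₀ : ℕ, ∀ N : ℕ, 1 ≤ N → ∀ M : ℕ, M₀ ≤ M →
      ({n : ℕ | 1 ≤ n ∧ n ≤ N ∧ ∃ a m : ℕ, 1 ≤ a ∧ a ≤ n ∧ n < a + m ∧ M ≤ m ∧
        ¬ Regular ε a m}.ncard : ℝ) ≤ N * Real.exp (-c * (M * Real.log M))) ∧
    (∃ C : ℝ, 0 < C ∧ ∀ N : ℕ, 3 ≤ N → ∀ a m : ℕ, 1 ≤ a → a ≤ N →
      C * (Real.log N / Real.log (Real.log N)) ≤ m → Regular ε a m) := by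
  classical
  have hRHs : SP.RHs := by
    intro s h1 h2 h0
    apply RH s h0
    · rintro ⟨k, hk⟩
      have := congrArg Complex.re hk
      simp at this
      have hk0 : (0 : ℝ) ≤ k := Nat.cast_nonneg k
      linarith
    · intro h; rw [h] at h2; simp at h2
  have hdel : ∀ n, LG.CU.del n = δ n := fun n => rfl
  obtain ⟨c, hc, m0, hm0, hmain⟩ := Pool.Agent.TH800.LD.main hRHs ε hε hε1
  simp only [hdel] at hmain
  -- the bad starting points of a given length
  set B : ℕ → ℕ → Set ℕ := fun N m => {a : ℕ | 1 ≤ a ∧ a ≤ N ∧ ¬ Regular ε a m} with hB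
  have hBfin : ∀ N m, (B N m).Finite := fun N m =>
    (Set.finite_Iic N).subset fun a ha => ha.2.1
  have hBcard : ∀ N m : ℕ, 1 ≤ N → m0 ≤ m →
      ((B N m).ncard : ℝ) ≤ N * Real.exp (-c * (m * Real.log m)) := by
    intro N m hN hm
    refine le_trans ?_ (hmain N hN m hm)
    have : B N m ⊆ {n : ℕ | 1 ≤ n ∧ n ≤ N ∧ ε * m ≤ |∑ i ∈ Finset.range m, δ (n + i) - m|} :=
      fun a ha => ⟨ha.1, ha.2.1, (not_le.1 ha.2.2).le⟩
    exact_mod_cast Set.ncard_le_ncard this
      ((Set.finite_Iic N).subset fun a ha => ha.2.1)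
  have hfirst : ∃ c' : ℝ, 0 < c' ∧ ∃ M₀ : ℕ, ∀ N : ℕ, 1 ≤ N → ∀ M : ℕ, M₀ ≤ M →
      ({n : ℕ | 1 ≤ n ∧ n ≤ N ∧ ∃ a m : ℕ, 1 ≤ a ∧ a ≤ n ∧ n < a + m ∧ M ≤ m ∧
        ¬ Regular ε a m}.ncard : ℝ) ≤ N * Real.exp (-c' * (M * Real.log M)) := by
    refine ⟨c / 2, by positivity, max m0 (⌈Real.exp (6 / c)⌉₊ + 1), fun N hN M hM => ?_⟩
    have hM1 : m0 ≤ M := (le_max_left _ _).trans hM
    have hM2 : ⌈Real.exp (6 / c)⌉₊ + 1 ≤ M := (le_max_right _ _).trans hM
    have hM3 : Real.exp (6 / c) ≤ M := (Nat.le_ceil _).trans (by exact_mod_cast (by omega : _ ≤ M))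
    have hM4 : 1 ≤ M := by omega
    have hMr : (1 : ℝ) ≤ M := by exact_mod_cast hM4
    set S : Set ℕ := {n : ℕ | 1 ≤ n ∧ n ≤ N ∧ ∃ a m : ℕ, 1 ≤ a ∧ a ≤ n ∧ n < a + m ∧ M ≤ m ∧
        ¬ Regular ε a m} with hS
    have hSfin : S.Finite := (Set.finite_Iic N).subset fun n hn => hn.2.1
    -- choose the length of the bad block
    have hch : ∀ n : ℕ, ∃ m : ℕ, n ∈ S → M ≤ m ∧ ∃ a : ℕ, 1 ≤ a ∧ a ≤ n ∧ n < a + m ∧
        ¬ Regular ε a m := by
      intro n
      by_cases hn : n ∈ S
      · obtain ⟨_, _, a, m, h1, h2, h3, h4, h5⟩ := hn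
        exact ⟨m, fun _ => ⟨h4, a, h1, h2, h3, h5⟩⟩
      · exact ⟨0, fun h => absurd h hn⟩
    choose μ hμ using hch
    set F : Finset ℕ := hSfin.toFinset.image μ with hF
    have hFM : ∀ m ∈ F, M ≤ m := by
      intro m hm
      rw [hF, Finset.mem_image] at hm
      obtain ⟨n, hn, rfl⟩ := hm
      exact (hμ n (hSfin.mem_toFinset.1 hn)).1
    -- the covering
    set Q : ℕ → Finset ℕ := fun m => (hBfin N m).toFinset.biUnion fun a => Finset.Ico a (a + m)
      with hQ
    have hcov : hSfin.toFinset ⊆ F.biUnion Q := by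
      intro n hn
      have hn' := hSfin.mem_toFinset.1 hn
      obtain ⟨_, a, h1, h2, h3, h4⟩ := hμ n hn'
      rw [Finset.mem_biUnion]
      refine ⟨μ n, Finset.mem_image_of_mem _ hn, ?_⟩
      rw [hQ, Finset.mem_biUnion]
      refine ⟨a, (hBfin N (μ n)).mem_toFinset.2 ⟨h1, h2.trans hn'.2.1, h4⟩, ?_⟩
      rw [Finset.mem_Ico]
      exact ⟨h2, h3⟩
    have hQcard : ∀ m ∈ F, ((Q m).card : ℝ) ≤
        N * (Real.exp (-(c / 2) * (M * Real.log M)) * Real.exp (-(m : ℝ))) := by
      intro m hm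
      have hMm := hFM m hm
      have h1 : ((Q m).card : ℝ) ≤ (B N m).ncard * m := by
        have h2 : (Q m).card ≤ ∑ a ∈ (hBfin N m).toFinset, (Finset.Ico a (a + m)).card :=
          Finset.card_biUnion_le
        simp only [Nat.card_Ico, Nat.add_sub_cancel_left, Finset.sum_const, smul_eq_mul] at h2
        rw [Set.ncard_eq_toFinset_card _ (hBfin N m)]
        exact_mod_cast h2
      have hmr : (M : ℝ) ≤ m := by exact_mod_cast hMm
      have hm1 : (1 : ℝ) ≤ m := hMr.trans hmr
      have h2 := hBcard N m hN (hM1.trans hMm)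
      have hlogM : 6 / c ≤ Real.log M := by
        rw [Real.le_log_iff_exp_le (by linarith)]; exact hM3
      have hlogm : Real.log M ≤ Real.log m := Real.log_le_log (by linarith) hmr
      have h3 : 3 ≤ c / 2 * Real.log m := by
        have h4 : c / 2 * (6 / c) = 3 := by field_simp; norm_num
        have h5 : c / 2 * (6 / c) ≤ c / 2 * Real.log m :=
          mul_le_mul_of_nonneg_left (hlogM.trans hlogm) (by positivity)
        linarith
      have h4 := bound_one hm1 h3
      have h5 : Real.exp (-(c / 2) * (m * Real.log m)) ≤ Real.exp (-(c / 2) * (M * Real.log M)) := by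
        apply Real.exp_le_exp.2
        have h6 : (M : ℝ) * Real.log M ≤ m * Real.log m := by
          apply mul_le_mul hmr hlogm (Real.log_nonneg hMr) (by linarith)
        nlinarith
      calc ((Q m).card : ℝ) ≤ (B N m).ncard * m := h1
        _ ≤ (N * Real.exp (-c * (m * Real.log m))) * m := by gcongr
        _ = N * (m * Real.exp (-c * (m * Real.log m))) := by ring
        _ ≤ N * (Real.exp (-(c / 2) * (m * Real.log m)) * Real.exp (-(m : ℝ))) := by gcongr
        _ ≤ _ := by gcongr
    have htot : (S.ncard : ℝ) ≤ ∑ m ∈ F,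
        N * (Real.exp (-(c / 2) * (M * Real.log M)) * Real.exp (-(m : ℝ))) := by
      rw [Set.ncard_eq_toFinset_card _ hSfin]
      calc ((hSfin.toFinset.card : ℕ) : ℝ) ≤ ((F.biUnion Q).card : ℝ) := by
            exact_mod_cast Finset.card_le_card hcov
        _ ≤ ∑ m ∈ F, ((Q m).card : ℝ) := by exact_mod_cast Finset.card_biUnion_le
        _ ≤ _ := Finset.sum_le_sum hQcard
    refine htot.trans ?_
    rw [← Finset.mul_sum, ← Finset.mul_sum]
    have h1 := sum_exp F fun m hm => hM4.trans (hFM m hm)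
    have h2 : 0 ≤ Real.exp (-(c / 2) * (M * Real.log M)) := (Real.exp_pos _).le
    have h3 : Real.exp (-(c / 2) * (M * Real.log M)) * ∑ m ∈ F, Real.exp (-(m : ℝ)) ≤
        Real.exp (-(c / 2) * (M * Real.log M)) * 1 := mul_le_mul_of_nonneg_left h1 h2
    rw [mul_one] at h3
    gcongr
  refine ⟨hfirst, ?_⟩
  -- long blocks
  set C : ℝ := 4 / c + m0 + 1 with hC
  have hC0 : 0 < C := by positivity
  refine ⟨C, hC0, fun N hN a m ha haN hm => ?_⟩
  by_contra hcon
  have hNr : (3 : ℝ) ≤ N := by exact_mod_cast hN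
  have hx1 : 1 < Real.log N := by
    rw [Real.lt_log_iff_exp_lt (by linarith)]
    linarith [Real.exp_one_lt_d9]
  set x := Real.log N with hx
  have hlx : 0 < Real.log x := Real.log_pos hx1
  have hx0 : 0 < x := by linarith
  have hlx1 : Real.log x ≤ Real.sqrt x := by
    have h1 := Real.log_le_sub_one_of_pos (Real.sqrt_pos.2 hx0)
    rw [Real.log_sqrt hx0.le] at h1
    have h2 := Real.log_le_sub_one_of_pos (Real.sqrt_pos.2 (Real.sqrt_pos.2 hx0))
    rw [Real.log_sqrt (Real.sqrt_nonneg x), Real.log_sqrt hx0.le] at h2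
    have h3 : 4 * (Real.sqrt (Real.sqrt x) - 1) ≤ Real.sqrt x := by
      have h4 := Real.sq_sqrt (Real.sqrt_nonneg x)
      nlinarith [sq_nonneg (Real.sqrt (Real.sqrt x) - 2)]
    linarith
  have hsx : Real.sqrt x ≤ x / Real.log x := by
    rw [le_div_iff₀ hlx]
    calc Real.sqrt x * Real.log x ≤ Real.sqrt x * Real.sqrt x := by gcongr
      _ = x := Real.mul_self_sqrt hx0.le
  have hs1 : 1 ≤ Real.sqrt x := by
    rw [Real.one_le_sqrt]; exact hx1.le
  have hCm : C * Real.sqrt x ≤ m := (mul_le_mul_of_nonneg_left hsx hC0.le).trans hm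
  have hC1 : 1 ≤ C := by
    have : 0 < 4 / c := by positivity
    have h0 : (0 : ℝ) ≤ m0 := Nat.cast_nonneg _
    linarith
  have hm0m : m0 ≤ m := by
    have h1 : (m0 : ℝ) ≤ m := by
      have : 0 < 4 / c := by positivity
      calc (m0 : ℝ) ≤ C * 1 := by linarith
        _ ≤ C * Real.sqrt x := by gcongr
        _ ≤ m := hCm
    exact_mod_cast h1
  have hsm : Real.sqrt x ≤ m := by
    calc Real.sqrt x = 1 * Real.sqrt x := (one_mul _).symm
      _ ≤ C * Real.sqrt x := by gcongr
      _ ≤ m := hCm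
  have hmpos : (0 : ℝ) < m := by linarith
  have hlm : Real.log x / 2 ≤ Real.log m := by
    rw [← Real.log_sqrt hx0.le]
    exact Real.log_le_log (by linarith) hsm
  have h1 : 2 * x ≤ c * (m * Real.log m) := by
    have h2 : C * (x / Real.log x) * (Real.log x / 2) ≤ m * Real.log m :=
      mul_le_mul hm hlm (by positivity) hmpos.le
    have h3 : C * (x / Real.log x) * (Real.log x / 2) = C * x / 2 := by field_simp
    rw [h3] at h2
    have h4 : c * (4 / c) = 4 := by field_simp
    have h5 : 4 ≤ c * C := by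
      rw [hC, mul_add, mul_add, h4]
      have : 0 ≤ c * (m0 : ℝ) := by positivity
      linarith
    nlinarith
  have h2 := hBcard N m (by omega) hm0m
  have h3 : (N : ℝ) * Real.exp (-c * (m * Real.log m)) < 1 := by
    have h4 : (N : ℝ) = Real.exp x := by rw [hx, Real.exp_log (by linarith)]
    rw [h4, ← Real.exp_add]
    rw [← Real.exp_zero]
    exact Real.exp_lt_exp.2 (by linarith)
  have h4 : 0 < (B N m).ncard := by
    rw [Set.ncard_pos (hBfin N m)]
    exact ⟨a, ha, haN, hcon⟩
  have h5 : (1 : ℝ) ≤ (B N m).ncard := by exact_mod_cast h4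
  linarith

end Pool.Agent.Results.MP_7eacff_nt.RegularBlocks
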